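import Pool.Agent.Helper89.A8.StmtsMT

/-!
# Block A8-M19c: the case `V*` of the structure theorem, MP_93c1ff. Proof: helper29
-/

set_option autoImplicit false

namespace Pool.Agent.A8

section m19c

/-- a nonzero homomorphism to a simple module is surjective -/
theorem m19c_surj {A Z : Type*} [AddCommGroup A] [Module RG A] [AddCommGroup Z] [Module RG Z]
    (hA : IsSimpleModule RG A) (f : Z →ₗ[RG] A) {z : Z} (hz : f z ≠ 0) :
    Function.Surjective f := by
  rw [← LinearMap.range_eq_top]
  rcases eq_bot_or_eq_top (LinearMap.range f) with h | h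
  · exfalso
    apply hz
    have : f z ∈ LinearMap.range f := ⟨z, rfl⟩
    rw [h] at this
    exact (Submodule.mem_bot RG).1 this
  · exact h

theorem m19c_ker_coatom {A Z : Type*} [AddCommGroup A] [Module RG A] [AddCommGroup Z]
    [Module RG Z] (hA : IsSimpleModule RG A) (f : Z →ₗ[RG] A) (hf : Function.Surjective f) :
    IsCoatom (LinearMap.ker f) := by
  have h1 : IsSimpleModule RG (Z ⧸ LinearMap.ker f) :=
    IsSimpleModule.congr (f.quotKerEquivOfSurjective hf)
  exact isSimpleModule_iff_isCoatom.1 h1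

theorem m19c_aux (h1 : S_M3E) {W : Type} [AddCommGroup W] [Module RG W] [Finite W]
    (q : W →ₗ[RG] MD) (i : MD →ₗ[RG] W) (hi : Function.Injective i) (P : Submodule RG W)
    (hP3 : P ⊓ LinearMap.ker q = LinearMap.range i) : Hg MD P := by
  have hMD : Hg MD MD := fun x hx => hx LinearMap.id
  apply h1 .d (by decide) P (LinearMap.ker (q.comp P.subtype))
  · -- the kernel
    have hmem : ∀ x : LinearMap.ker (q.comp P.subtype), ((x : P) : W) ∈ LinearMap.range i := by
      intro x
      rw [← hP3]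
      exact ⟨x.1.2, x.2⟩
    apply Hg.of_injective (Y := MD)
      ((LinearEquiv.ofInjective i hi).symm.toLinearMap.comp
        ((P.subtype.comp (LinearMap.ker (q.comp P.subtype)).subtype).codRestrict
          (LinearMap.range i) hmem)) _ hMD
    intro a b hab
    have h5 := (LinearEquiv.ofInjective i hi).symm.injective hab
    have h6 : (((a : P) : W)) = ((b : P) : W) :=
      congrArg (fun x : LinearMap.range i => (x : W)) h5
    exact Subtype.ext (Subtype.ext h6)
  · apply Hg.of_injective (Y := MD)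
      ((LinearMap.ker (q.comp P.subtype)).liftQ (q.comp P.subtype) le_rfl) _ hMD
    rw [← LinearMap.ker_eq_bot]
    exact Submodule.ker_liftQ_eq_bot _ _ _ le_rfl

theorem bMTD (h1 : S_M3E) (h2 : S_M6) (h3 : S_SIM) (h4 : S_END) : S_MTD := by
  intro Z _ _ _ M hMD hMle hd hg
  obtain ⟨e⟩ := hMD
  have hsD : IsSimpleModule RG MD := h3 .d
  have hsL : IsSimpleModule RG ML := h3 .l
  have hntD : Nontrivial MD := IsSimpleModule.nontrivial RG MD
  obtain ⟨u0, hu0⟩ := exists_ne (0 : MD)
  have hHgM : Hg MD M := fun x hx => e.injective (by rw [map_zero]; exact hx e.toLinearMap)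
  -- (i)
  have hi : ∀ P : Submodule RG Z, M ≤ P → Hg MD P → P = M := by
    intro P hMP hP
    have hm0 : (⟨(e.symm u0 : M), hMP (e.symm u0).2⟩ : P) ≠ 0 := by
      intro h
      apply hu0
      have h5 : ((e.symm u0 : M) : Z) = 0 := congrArg Subtype.val h
      have h6 : e.symm u0 = 0 := Subtype.ext h5
      rw [← e.apply_symm_apply u0, h6, map_zero]
    have : ∃ f : P →ₗ[RG] MD, f ⟨(e.symm u0 : M), hMP (e.symm u0).2⟩ ≠ 0 := by
      by_contra hcon
      push Not at hcon
      exact hm0 (hP _ hcon)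
    obtain ⟨f, hf⟩ := this
    have hinj : Function.Injective f := by
      rw [← LinearMap.ker_eq_bot]
      by_contra hk
      have hk' : (LinearMap.ker f).map P.subtype ≠ ⊥ := by
        intro h
        apply hk
        exact Submodule.map_injective_of_injective P.injective_subtype
          (h.trans (Submodule.map_bot _).symm)
      have h5 := hMle _ hk' (e.symm u0).2
      obtain ⟨y, hy, hye⟩ := h5
      apply hf
      have : (⟨(e.symm u0 : M), hMP (e.symm u0).2⟩ : P) = y := Subtype.ext hye.symm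
      rw [this]
      exact hy
    have hcard : Nat.card P ≤ Nat.card M := by
      rw [Nat.card_congr e.toEquiv]
      exact Nat.card_le_card_of_injective f hinj
    apply le_antisymm _ hMP
    intro x hx
    have hsub : (M : Set Z) ⊆ (P : Set Z) := hMP
    have h6 : (M : Set Z) = (P : Set Z) := by
      apply Set.eq_of_subset_of_ncard_le hsub
      rw [← Nat.card_coe_set_eq, ← Nat.card_coe_set_eq]
      exact hcard
    have : x ∈ (P : Set Z) := hx
    rw [← h6] at this
    exact this
  -- elements of `rj MD (Z/M)`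
  by_cases hbot : rj MD (Z ⧸ M) = ⊥
  · have hfq : Finite (Z ⧸ M) := Finite.of_surjective _ M.mkQ_surjective
    have hHq : Hg MD (Z ⧸ M) := by
      intro x hx
      have : x ∈ rj MD (Z ⧸ M) := mem_rj.2 hx
      rw [hbot] at this
      exact (Submodule.mem_bot RG).1 this
    have hHZ : Hg MD Z := h1 .d (by decide) Z M hHgM hHq
    exact (hi ⊤ le_top (hHZ.sub ⊤)).symm
  by_cases htop : rj MD (Z ⧸ M) = ⊤
  · exfalso
    obtain ⟨z, hz, hz0⟩ := Submodule.exists_mem_ne_zero_of_ne_bot hbot
    have : ∃ f : rj MD (Z ⧸ M) →ₗ[RG] ML, f ⟨z, hz⟩ ≠ 0 := by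
      by_contra hcon
      push Not at hcon
      exact hz0 (congrArg Subtype.val (hg _ hcon))
    obtain ⟨f, hf⟩ := this
    -- a surjection `Z → L`
    let k : Z →ₗ[RG] rj MD (Z ⧸ M) := M.mkQ.codRestrict _ (fun x => by
      rw [htop]; exact Submodule.mem_top)
    obtain ⟨z', hz'⟩ := M.mkQ_surjective z
    have hk : k z' = ⟨z, hz⟩ := Subtype.ext hz'
    have hne : (f.comp k) z' ≠ 0 := by
      rw [LinearMap.comp_apply, hk]; exact hf
    have hsurj := m19c_surj hsL (f.comp k) hne
    obtain ⟨f', hf', hk'⟩ := hd _ (m19c_ker_coatom hsL (f.comp k) hsurj)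
    -- `L → V*`
    let ψ : ML →ₗ[RG] MD :=
      (f'.quotKerEquivOfSurjective hf').toLinearMap.comp
        ((Submodule.quotEquivOfEq _ _ hk'.symm).toLinearMap.comp
          ((f.comp k).quotKerEquivOfSurjective hsurj).symm.toLinearMap)
    have hψ : Function.Injective ψ := by
      intro a b hab
      exact ((f.comp k).quotKerEquivOfSurjective hsurj).symm.injective
        ((Submodule.quotEquivOfEq _ _ hk'.symm).injective
          ((f'.quotKerEquivOfSurjective hf').injective hab))
    have hntL : Nontrivial ML := IsSimpleModule.nontrivial RG ML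
    obtain ⟨w0, hw0⟩ := exists_ne (0 : ML)
    rcases h4 .l .d ψ with h5 | ⟨h5, _⟩
    · exact hw0 (hψ (by rw [map_zero]; exact h5 w0))
    · exact absurd h5 (by decide)
  -- the general case
  exfalso
  let N1 : Submodule RG Z := (rj MD (Z ⧸ M)).comap M.mkQ
  have hN1 : N1 ≠ ⊤ := by
    intro h
    apply htop
    rw [eq_top_iff]
    intro z _
    obtain ⟨z, rfl⟩ := M.mkQ_surjective z
    have : z ∈ N1 := by rw [h]; exact Submodule.mem_top
    exact this
  have hMN1 : M ≤ N1 := by
    intro x hx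
    change M.mkQ x ∈ rj MD (Z ⧸ M)
    rw [Submodule.mkQ_apply, (Submodule.Quotient.mk_eq_zero M).2 hx]
    exact Submodule.zero_mem _
  obtain ⟨Z', hZ'⟩ : ∃ Z' : Submodule RG Z, N1 ⋖ Z' :=
    exists_covBy_of_wellFoundedLT (fun h => hN1 (isMax_iff_eq_top.1 h))
  obtain ⟨z, hzZ', hzN1⟩ := SetLike.exists_of_lt hZ'.lt
  obtain ⟨f0, hf0⟩ : ∃ f : (Z ⧸ M) →ₗ[RG] MD, f (M.mkQ z) ≠ 0 := by
    by_contra hcon
    push Not at hcon
    exact hzN1 (mem_rj.2 hcon)
  let q : Z' →ₗ[RG] MD := (f0.comp M.mkQ).comp Z'.subtype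
  have hqz : q ⟨z, hzZ'⟩ ≠ 0 := hf0
  have hqs : Function.Surjective q := m19c_surj hsD q hqz
  have hqN1 : ∀ x : Z', (x : Z) ∈ N1 → q x = 0 := fun x hx => mem_rj.1 hx f0
  have hqk : ∀ x : Z', q x = 0 → (x : Z) ∈ N1 := by
    intro x hx
    have h5 : N1 ≤ (LinearMap.ker q).map Z'.subtype := fun y hy =>
      ⟨⟨y, hZ'.le hy⟩, hqN1 _ hy, rfl⟩
    have h6 : (LinearMap.ker q).map Z'.subtype ≤ Z' := Submodule.map_subtype_le _ _
    rcases hZ'.eq_or_eq h5 h6 with h7 | h7
    · rw [← h7]; exact ⟨x, hx, rfl⟩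
    · exfalso
      have : z ∈ (LinearMap.ker q).map Z'.subtype := by rw [h7]; exact hzZ'
      obtain ⟨y, hy, hyz⟩ := this
      apply hqz
      have : (⟨z, hzZ'⟩ : Z') = y := Subtype.ext hyz.symm
      rw [this]
      exact hy
  let i : MD →ₗ[RG] Z' := (Submodule.inclusion (hMN1.trans hZ'.le)).comp e.symm.toLinearMap
  have hi_inj : Function.Injective i := by
    intro a b hab
    exact e.symm.injective (Submodule.inclusion_injective (hMN1.trans hZ'.le) hab)
  have hi_mem : ∀ m, ((i m : Z') : Z) ∈ M := fun m => (e.symm m).2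
  have hi_of : ∀ x : Z', (x : Z) ∈ M → ∃ m, i m = x := by
    intro x hx
    refine ⟨e ⟨x, hx⟩, ?_⟩
    apply Subtype.ext
    change ((e.symm (e ⟨x, hx⟩) : M) : Z) = x
    rw [e.symm_apply_apply]
  have hqi : ∀ m, q (i m) = 0 := fun m => hqN1 _ (hMN1 (hi_mem m))
  obtain ⟨P, hP1, hP2, hP3⟩ := h2 .d (by decide) Z' q i hqs hi_inj hqi (by
    intro x hx hfx
    apply hi_of
    have hxR : M.mkQ (x : Z) ∈ rj MD (Z ⧸ M) := hqk x hx
    let k : LinearMap.ker q →ₗ[RG] rj MD (Z ⧸ M) :=
      ((M.mkQ.comp Z'.subtype).comp (LinearMap.ker q).subtype).codRestrict _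
        (fun y => hqk y.1 y.2)
    have h5 : (⟨M.mkQ (x : Z), hxR⟩ : rj MD (Z ⧸ M)) = 0 := by
      apply hg
      intro f
      have h6 := hfx (f.comp k) (by
        intro m hm
        have : k ⟨i m, hm⟩ = 0 := by
          apply Subtype.ext
          exact (Submodule.Quotient.mk_eq_zero M).2 (hi_mem m)
        rw [LinearMap.comp_apply, this, map_zero]) hx
      exact h6
    have h7 := congrArg Subtype.val h5
    exact (Submodule.Quotient.mk_eq_zero M).1 h7) (by
    intro P hPk hP0
    have h5 : P.map Z'.subtype ≠ ⊥ := by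
      intro h
      apply hP0
      exact Submodule.map_injective_of_injective Z'.injective_subtype
        (h.trans (Submodule.map_bot _).symm)
    have h6 := hMle _ h5
    rintro _ ⟨m, rfl⟩
    obtain ⟨y, hy, hye⟩ := h6 (hi_mem m)
    have : i m = y := Subtype.ext hye.symm
    rw [this]
    exact hy)
  -- `P` is `Hg MD`
  have hfP : Finite P := inferInstance
  have hHgP : Hg MD P := m19c_aux h1 q i hi_inj P hP3
  -- its image in `Z`
  have hP' : P.map Z'.subtype = M := by
    apply hi
    · intro x hx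
      obtain ⟨m, hm⟩ := hi_of ⟨x, hZ'.le (hMN1 hx)⟩ hx
      exact ⟨i m, hP1 ⟨m, rfl⟩, congrArg Subtype.val hm⟩
    · apply Hg.of_injective (Y := P)
        (Submodule.equivSubtypeMap Z' P).symm.toLinearMap
        (Submodule.equivSubtypeMap Z' P).symm.injective hHgP
  -- contradiction
  have hPk : P ≤ LinearMap.ker q := by
    intro x hx
    have h5 : ((x : Z') : Z) ∈ M := by rw [← hP']; exact ⟨x, hx, rfl⟩
    exact hqN1 x (hMN1 h5)
  rw [sup_eq_right.2 hPk] at hP2
  apply hqz
  rw [← LinearMap.mem_ker, hP2]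
  exact Submodule.mem_top

end m19c

end Pool.Agent.A8
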