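import Pool.Agent.Helper89.A8.StmtsMT

/-!
# Block A8-M19e: the structure theorem for pairings (glue), MP_93c1ff. Proof: helper29
-/

set_option autoImplicit false

namespace Pool.Agent.A8

section m19e

variable {X Y Z : Type*} [AddCommGroup X] [Module RG X] [AddCommGroup Y] [Module RG Y]
  [AddCommGroup Z] [Module RG Z]

theorem m19e_heads_quot {a : Ty} (h : Heads a X) (N : Submodule RG X) : Heads a (X ⧸ N) := by
  intro K hK
  have hK' : IsCoatom (K.comap N.mkQ) := by
    refine ⟨?_, ?_⟩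
    · intro h1
      apply hK.1
      rw [eq_top_iff]
      intro x _
      obtain ⟨x, rfl⟩ := N.mkQ_surjective x
      have : x ∈ K.comap N.mkQ := by rw [h1]; exact Submodule.mem_top
      exact this
    · intro L hL
      have h2 : K < L.map N.mkQ := by
        refine lt_of_le_of_ne ?_ ?_
        · intro x hx
          obtain ⟨x, rfl⟩ := N.mkQ_surjective x
          exact ⟨x, hL.le hx, rfl⟩
        · intro h3
          apply hL.ne
          apply le_antisymm hL.le
          intro x hx
          rw [Submodule.mem_comap, h3]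
          exact ⟨x, hx, rfl⟩
      have h3 := hK.2 _ h2
      rw [eq_top_iff]
      intro x _
      have h4 : N.mkQ x ∈ L.map N.mkQ := by rw [h3]; exact Submodule.mem_top
      obtain ⟨y, hy, hyx⟩ := h4
      have h5 : x - y ∈ K.comap N.mkQ := by
        rw [Submodule.mem_comap, map_sub, hyx, sub_self]
        exact K.zero_mem
      have h6 := L.add_mem (hL.le h5) hy
      rwa [sub_add_cancel] at h6
  obtain ⟨f, hf, hfk⟩ := h _ hK'
  have hN : N ≤ LinearMap.ker f := by
    rw [hfk]
    intro x hx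
    rw [Submodule.mem_comap, Submodule.mkQ_apply, (Submodule.Quotient.mk_eq_zero N).2 hx]
    exact K.zero_mem
  refine ⟨N.liftQ f hN, ?_, ?_⟩
  · intro m
    obtain ⟨x, rfl⟩ := hf m
    exact ⟨N.mkQ x, by simp⟩
  · ext x
    obtain ⟨x, rfl⟩ := N.mkQ_surjective x
    rw [LinearMap.mem_ker, Submodule.mkQ_apply, Submodule.liftQ_apply, ← LinearMap.mem_ker, hfk]
    rfl

theorem m19e_span_quot {p : X →+ Y →+ Z} (hp : Adm p)
    (hs : ∀ N : Submodule RG Z, (∀ x y, p x y ∈ N) → N = ⊤) (M : Submodule RG Z)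
    (N : Submodule RG (Z ⧸ M)) (h : ∀ x y, qp hp M x y ∈ N) : N = ⊤ := by
  have h1 := hs (N.comap M.mkQ) (fun x y => by
    have := h (Submodule.Quotient.mk x) (Submodule.Quotient.mk y)
    rw [qp_mk] at this
    exact this)
  rw [eq_top_iff]
  intro z _
  obtain ⟨z, rfl⟩ := M.mkQ_surjective z
  have : z ∈ N.comap M.mkQ := by rw [h1]; exact Submodule.mem_top
  exact this

theorem m19e_card_quot [Finite Z] {M : Submodule RG Z} (hM : M ≠ ⊥) :
    Nat.card (Z ⧸ M) < Nat.card Z := by
  obtain ⟨m, hm, hm0⟩ := Submodule.exists_mem_ne_zero_of_ne_bot hM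
  have h1 : Nat.card (Z ⧸ M) ≤ Nat.card Z := Nat.card_le_card_of_surjective _ M.mkQ_surjective
  refine lt_of_le_of_ne h1 ?_
  intro h2
  have h3 : Function.Injective M.mkQ := by
    have := Fintype.ofFinite Z
    have := Fintype.ofFinite (Z ⧸ M)
    rw [Nat.card_eq_fintype_card, Nat.card_eq_fintype_card] at h2
    exact ((Fintype.bijective_iff_surjective_and_card _).2 ⟨M.mkQ_surjective, h2.symm⟩).1
  apply hm0
  apply h3
  rw [map_zero]
  exact (Submodule.Quotient.mk_eq_zero M).2 hm

/-- the map `rj A X → rj A (X / N)` -/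
noncomputable def m19eRj (A : Type*) [AddCommGroup A] [Module RG A] (N : Submodule RG X) :
    rj A X →ₗ[RG] rj A (X ⧸ N) :=
  (N.mkQ.comp (rj A X).subtype).codRestrict _ (fun x => mem_rj.2 fun f =>
    mem_rj.1 x.2 (f.comp N.mkQ))

theorem m19eRj_eq_zero {A : Type*} [AddCommGroup A] [Module RG A] {N : Submodule RG X}
    {x : rj A X} (h : m19eRj A N x = 0) : (x : X) ∈ N := by
  have h1 := congrArg Subtype.val h
  exact (Submodule.Quotient.mk_eq_zero N).1 h1

theorem m19e_rj_bot {A : Type*} [AddCommGroup A] [Module RG A] (h : Hg A X) (x : rj A X) :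
    x = 0 := Subtype.ext (h x (mem_rj.1 x.2))

theorem bMT (h1 : S_MTA) (h2 : S_MTB) (h3 : S_MTD) (h4 : S_MTL) (h5 : S_MTH) (h6 : S_SIM)
    (h7 : S_END) : S_MT := by
  have key : ∀ n : ℕ, ∀ (X Y Z : Type) [AddCommGroup X] [Module RG X] [Finite X]
      [AddCommGroup Y] [Module RG Y] [Finite Y] [AddCommGroup Z] [Module RG Z] [Finite Z],
      Nat.card Z = n →
      Free15 X → Free15 Y → Free15 Z → Heads .v X → Heads .l Y →
      ∀ p : X →+ Y →+ Z, Adm p → PerfL p → PerfR p →
      (∀ N : Submodule RG Z, (∀ x y, p x y ∈ N) → N = ⊤) →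
      Hg MV X ∧ Hg MV (rj ML Y) ∧ Hg ML (rj MD Z) := by
    intro n
    induction n using Nat.strong_induction_on with
    | _ n IH =>
    intro X Y Z _ _ _ _ _ _ _ _ _ hn hX hY hZ hhX hhY p hp hL hR hs
    -- induction hypothesis for the quotient pairings
    have IH' : ∀ M : Submodule RG Z, M ≠ ⊥ → Hg MV (X ⧸ kL hp M) ∧
        Hg MV (rj ML (Y ⧸ kR hp M)) ∧ Hg ML (rj MD (Z ⧸ M)) := by
      intro M hM
      have hfX : Finite (X ⧸ kL hp M) := Finite.of_surjective _ (kL hp M).mkQ_surjective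
      have hfY : Finite (Y ⧸ kR hp M) := Finite.of_surjective _ (kR hp M).mkQ_surjective
      have hfZ : Finite (Z ⧸ M) := Finite.of_surjective _ M.mkQ_surjective
      exact IH _ (hn ▸ m19e_card_quot hM) _ _ _ rfl (hX.quot _) (hY.quot _) (hZ.quot _)
        (m19e_heads_quot hhX _) (m19e_heads_quot hhY _) (qp hp M) (qp_adm hp M) (qp_perfL hp M)
        (qp_perfR hp M) (m19e_span_quot hp hs M)
    by_cases hZ0 : Subsingleton Z
    · refine ⟨fun x _ => hL x fun y => Subsingleton.elim _ _, fun y _ => ?_, fun z _ => ?_⟩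
      · exact Subtype.ext (hR y fun x => Subsingleton.elim _ _)
      · exact Subtype.ext (Subsingleton.elim _ _)
    by_cases hM12 : ∃ M1 M2 : Submodule RG Z, M1 ≠ ⊥ ∧ M2 ≠ ⊥ ∧ M1 ⊓ M2 = ⊥
    · obtain ⟨M1, M2, hM1, hM2, h12⟩ := hM12
      have ha := IH' M1 hM1
      have hb := IH' M2 hM2
      have h12' : ∀ z, z ∈ M1 → z ∈ M2 → z = 0 := fun z hz1 hz2 => by
        have : z ∈ M1 ⊓ M2 := ⟨hz1, hz2⟩
        rw [h12] at this
        exact (Submodule.mem_bot RG).1 this
      refine ⟨fun x hx => ?_, fun y hy => ?_, fun z hz => ?_⟩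
      · have e1 := ha.1 (Submodule.Quotient.mk x) (fun f => hx (f.comp (kL hp M1).mkQ))
        have e2 := hb.1 (Submodule.Quotient.mk x) (fun f => hx (f.comp (kL hp M2).mkQ))
        rw [Submodule.Quotient.mk_eq_zero] at e1 e2
        exact hL x fun y => h12' _ (e1 y) (e2 y)
      · have e1 := m19eRj_eq_zero (ha.2.1 (m19eRj ML (kR hp M1) y)
          (fun f => hy (f.comp (m19eRj ML (kR hp M1)))))
        have e2 := m19eRj_eq_zero (hb.2.1 (m19eRj ML (kR hp M2) y)
          (fun f => hy (f.comp (m19eRj ML (kR hp M2)))))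
        exact Subtype.ext (hR y fun x => h12' _ (e1 x) (e2 x))
      · have e1 := m19eRj_eq_zero (ha.2.2 (m19eRj MD M1 z)
          (fun f => hz (f.comp (m19eRj MD M1))))
        have e2 := m19eRj_eq_zero (hb.2.2 (m19eRj MD M2 z)
          (fun f => hz (f.comp (m19eRj MD M2))))
        exact Subtype.ext (h12' _ e1 e2)
    · -- a unique simple submodule
      push Not at hM12
      have hnt : Nontrivial Z := not_subsingleton_iff_nontrivial.1 hZ0
      obtain ⟨M, hM⟩ : ∃ M : Submodule RG Z, IsAtom M := by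
        have : IsAtomic (Submodule RG Z) := inferInstance
        rcases eq_bot_or_exists_atom_le (⊤ : Submodule RG Z) with h | ⟨M, hM, _⟩
        · exact absurd h top_ne_bot
        · exact ⟨M, hM⟩
      have hMle : ∀ P : Submodule RG Z, P ≠ ⊥ → M ≤ P := by
        intro P hP
        have h8 := hM12 M P hM.1 hP
        have h9 := (hM.le_iff.1 (inf_le_left : M ⊓ P ≤ M)).resolve_left h8
        exact h9 ▸ inf_le_right
      have hIH := IH' M hM.1
      rcases h2 X Y Z hX hY hZ hhX hhY p hp hL hR hs M hM.1 hMle with ⟨⟨e⟩⟩ | hML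
      · have hd : Heads .d Z := h5 X Y Z hX hY hZ hhX hhY p hp hs
        have htop : M = ⊤ := h3 Z M ⟨e⟩ hMle hd hIH.2.2
        subst htop
        let e' : Z ≃ₗ[RG] MD := (Submodule.topEquiv (R := RG) (M := Z)).symm.trans e
        obtain ⟨h8, h9⟩ := h1 X Y hX hY hhX hhY
          (pcomp LinearMap.id LinearMap.id e'.toLinearMap p) (pcomp_adm _ _ _ hp)
          (fun x hx => hL x fun y => e'.injective (by
            rw [map_zero]; exact hx y))
          (fun y hy => hR y fun x => e'.injective (by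
            rw [map_zero]; exact hy x))
        refine ⟨h8, fun y _ => m19e_rj_bot h9 y, fun z _ => ?_⟩
        exact m19e_rj_bot (fun z hz => e'.injective (by
          rw [map_zero]; exact hz e'.toLinearMap)) z
      · exact h4 X Y Z hX hY hZ hhX hhY p hp hL hR hs M hML hMle hIH.1 hIH.2.1
  intro X Y Z _ _ _ _ _ _ _ _ _ hX hY hZ hhX hhY p hp hL hR hs
  exact key _ X Y Z rfl hX hY hZ hhX hhY p hp hL hR hs

end m19e

end Pool.Agent.A8
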